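import Pool.Agent.W151.TreeEnd

/-!
# Almost-spanning versus spanning trees: `s_{n-1}(G) ≥ ((n-1)/n)^(n-3) s_n(G)`

The proof uses the inequality between the numbers of subtrees with `k` and with `k + 1` vertices
relative to the complete graph, `Pool.Agent.W151.TreeIneq.ratio_anti` of the starting files.
-/

set_option autoImplicit false

namespace Pool.Agent.Results.MP_8211ad_co.AlmostSpanning

/-- `s_k(G)`: the number of the subtrees of `G` (subgraphs which are trees) with exactly `k`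
vertices. -/
noncomputable def subtrees {V : Type} (G : SimpleGraph V) (k : ℕ) : ℕ :=
  Set.ncard {H : G.Subgraph | H.coe.IsTree ∧ H.verts.ncard = k}

/-- For all `n ≥ 2` and all graphs `G` on `n` vertices, `s_{n-1}(G) ≥ c_n s_n(G)` with
`c_n = s_{n-1}(K_n) / s_n(K_n) = ((n-1)/n)^(n-3)`. -/
theorem result (n : ℕ) (hn : 2 ≤ n) (V : Type) [Fintype V] (hV : Fintype.card V = n)
    (G : SimpleGraph V) :
    (((n : ℝ) - 1) / n) ^ ((n : ℤ) - 3) * (subtrees G n : ℝ) ≤ (subtrees G (n - 1) : ℝ) ∧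
    (subtrees (⊤ : SimpleGraph V) (n - 1) : ℝ) / (subtrees (⊤ : SimpleGraph V) n : ℝ) =
      (((n : ℝ) - 1) / n) ^ ((n : ℤ) - 3) := by
  classical
  have hs : ∀ (H : SimpleGraph V) (k : ℕ), (subtrees H k : ℝ) = Pool.Agent.W151.TreeIneq.s H k :=
    fun H k => Pool.Agent.W151.TreeIneq.s_eq H k
  obtain ⟨m, rfl⟩ : ∃ m, n = m + 2 := ⟨n - 2, by omega⟩
  have hgen : ∀ j k : ℕ, 1 ≤ j → j ≤ k → k ≤ m + 2 →
      (subtrees (⊤ : SimpleGraph V) j : ℝ) * subtrees G k ≤
        subtrees G j * subtrees (⊤ : SimpleGraph V) k := by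
    intro j k hj hjk hk
    have h := Pool.Agent.W151.TreeIneq.ratio_anti' G hj k hjk (by rw [hV]; exact hk)
    have hp : ∀ i, 1 ≤ i → i ≤ m + 2 → 0 < Pool.Agent.W151.TreeIneq.s (⊤ : SimpleGraph V) i := by
      intro i hi hi2
      rw [Pool.Agent.W151.TreeIneq.s_top hi, hV]
      have h1 : 0 < (m + 2).choose i := Nat.choose_pos hi2
      have h2 : 0 < Pool.Agent.W151.TreeNum.a i := Pool.Agent.W151.TreeNum.a_pos hi
      exact_mod_cast Nat.mul_pos h1 h2
    rw [div_le_div_iff₀ (hp k (by omega) hk) (hp j hj (by omega))] at h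
    rw [hs, hs, hs, hs]
    linarith
  have hc : (subtrees (⊤ : SimpleGraph V) (m + 2 - 1) : ℝ) /
      (subtrees (⊤ : SimpleGraph V) (m + 2) : ℝ) =
      ((((m + 2 : ℕ) : ℝ) - 1) / (m + 2 : ℕ)) ^ (((m + 2 : ℕ) : ℤ) - 3) := by
    rw [hs, hs, Pool.Agent.W151.TreeIneq.s_top (by omega), Pool.Agent.W151.TreeIneq.s_top (by omega),
      hV, Nat.choose_self]
    have e1 : m + 2 - 1 = m + 1 := by omega
    rw [e1]
    have e2 : (m + 2).choose (m + 1) = m + 2 := by
      rw [← Nat.choose_symm_of_eq_add (show m + 2 = 1 + (m + 1) by omega), Nat.choose_one_right]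
    rw [e2]
    unfold Pool.Agent.W151.TreeNum.a
    rcases m with _ | m
    · norm_num
    · have e3 : m + 1 + 1 - 2 = m := by omega
      have e4 : m + 1 + 2 - 2 = m + 1 := by omega
      rw [e3, e4]
      have e5 : (((m + 1 + 2 : ℕ) : ℤ) - 3) = (m : ℤ) := by push_cast; ring
      rw [e5, zpow_natCast, div_pow]
      push_cast
      have h3 : (m : ℝ) + 1 + 2 ≠ 0 := by positivity
      have h4 : ((m : ℝ) + 1 + 2 - 1) = m + 1 + 1 := by ring
      rw [h4]
      field_simp
      ring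
  refine ⟨?_, hc⟩
  · rw [← hc]
    have h := hgen (m + 1) (m + 2) (by omega) (by omega) le_rfl
    have hp : (0 : ℝ) < subtrees (⊤ : SimpleGraph V) (m + 2) := by
      rw [hs, Pool.Agent.W151.TreeIneq.s_top (by omega), hV, Nat.choose_self]
      have h2 : 0 < Pool.Agent.W151.TreeNum.a (m + 2) :=
        Pool.Agent.W151.TreeNum.a_pos (by omega)
      simpa using h2
    rw [div_mul_eq_mul_div, div_le_iff₀ hp]
    exact h

end Pool.Agent.Results.MP_8211ad_co.AlmostSpanning
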